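import Pool.Agent.L0h89.HT.Stm

/-!
# HT, module E: the sets `K` are closed, and they determine the curve
-/

set_option autoImplicit false

namespace Pool.Agent.L0h76.HT

open Pool.Agent.L0h89.HT MeasureTheory Filter Topology

lemma rf_eq (z : ℂ) : rf z = -(starRingEnd ℂ z) := by
  unfold rf
  apply Complex.ext <;> simp

lemma rf_cont : Continuous rf := by
  have : rf = fun z => -(starRingEnd ℂ z) := funext rf_eq
  rw [this]
  exact Complex.continuous_conj.neg

lemma ev1_cont : Continuous fun x : (C(unitInterval, ℂ) × H984N.X) × unitInterval => x.1.1 x.2 :=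
  Continuous.eval (continuous_fst.comp continuous_fst) continuous_snd

lemma ev2_cont : Continuous fun x : (C(unitInterval, ℂ) × H984N.X) × unitInterval => x.1.2.1 x.2 :=
  Continuous.eval (continuous_fst.comp (continuous_snd.comp continuous_fst)) continuous_snd

lemma closed_ex {Y : Type*} [TopologicalSpace Y] {C : Set (Y × unitInterval)} (hC : IsClosed C) :
    IsClosed {q : Y | ∃ u, (q, u) ∈ C} := by
  have h := isClosedMap_fst_of_compactSpace C hC
  convert h using 1
  ext q
  simp

lemma K_closed (r lam η : ℝ) : IsClosed (K r lam η) := by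
  have h1 : K r lam η = ⋂ s : unitInterval,
      ({q : C(unitInterval, ℂ) × H984N.X | ∃ u : unitInterval,
          (q, u) ∈ {x : (C(unitInterval, ℂ) × H984N.X) × unitInterval | x.2 ≤ s ∧ r ≤ ‖x.1.1 x.2‖}} ∪
        {q : C(unitInterval, ℂ) × H984N.X | ∃ u : unitInterval,
          (q, u) ∈ {x : (C(unitInterval, ℂ) × H984N.X) × unitInterval |
            |(x.2 : ℝ) * (lam ^ (7/4 : ℝ) * x.1.2.2) + s - lam ^ (7/4 : ℝ) * x.1.2.2| ≤ η ∧
            dist (x.1.1 s) ((lam : ℂ) * rf (x.1.2.1 x.2)) ≤ η}}) := by
    ext q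
    simp only [K, Set.mem_setOf_eq, Set.mem_iInter, Set.mem_union]
    refine forall_congr' fun s => ?_
    constructor
    · intro h
      by_cases h2 : ∀ u : unitInterval, u ≤ s → ‖q.1 u‖ < r
      · right; exact h h2
      · left
        push Not at h2
        exact h2
    · rintro (h | h) h2
      · obtain ⟨u, hu, hu2⟩ := h
        exact absurd (h2 u hu) (not_lt.mpr hu2)
      · exact h
  rw [h1]
  refine isClosed_iInter fun s => IsClosed.union ?_ ?_
  · apply closed_ex
    exact (isClosed_le continuous_snd continuous_const).inter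
      (isClosed_le continuous_const ev1_cont.norm)
  · apply closed_ex
    have hA : IsClosed {x : (C(unitInterval, ℂ) × H984N.X) × unitInterval |
        |(x.2 : ℝ) * (lam ^ (7/4 : ℝ) * x.1.2.2) + s - lam ^ (7/4 : ℝ) * x.1.2.2| ≤ η} := by
      refine isClosed_le ?_ continuous_const
      have h2 : Continuous fun x : (C(unitInterval, ℂ) × H984N.X) × unitInterval => (x.2 : ℝ) :=
        continuous_subtype_val.comp continuous_snd
      have h3 : Continuous fun x : (C(unitInterval, ℂ) × H984N.X) × unitInterval => x.1.2.2 :=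
        continuous_snd.comp (continuous_snd.comp continuous_fst)
      exact (((h2.mul (continuous_const.mul h3)).add continuous_const).sub
        (continuous_const.mul h3)).abs
    have hB : IsClosed {x : (C(unitInterval, ℂ) × H984N.X) × unitInterval |
        dist (x.1.1 s) ((lam : ℂ) * rf (x.1.2.1 x.2)) ≤ η} := by
      refine isClosed_le ?_ continuous_const
      have h2 : Continuous fun x : (C(unitInterval, ℂ) × H984N.X) × unitInterval => x.1.1 s :=
        Continuous.eval (continuous_fst.comp continuous_fst) continuous_const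
      exact h2.dist (continuous_const.mul (rf_cont.comp ev2_cont))
    exact hA.inter hB

theorem s_KCL : S_KCL := by
  refine ⟨K_closed, ?_, ?_⟩
  · intro r lam η η' hη q hq s hs
    obtain ⟨u, h1, h2⟩ := hq s hs
    exact ⟨u, h1.trans hη, h2.trans hη⟩
  · intro r lam q hlam hr hK
    set L : ℝ := lam ^ (7/4 : ℝ) * q.2.2 with hL
    have hlp : 0 < lam ^ (7/4 : ℝ) := Real.rpow_pos_of_pos hlam _
    have key : ∀ s : unitInterval, ∃ u : unitInterval, (u : ℝ) * L + s - L = 0 ∧
        q.1 s = (lam : ℂ) * rf (q.2.1 u) := by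
      intro s
      have h1 : ∀ m : ℕ, ∃ u : unitInterval, |(u : ℝ) * L + s - L| ≤ 1 / ((m : ℝ) + 1) ∧
          dist (q.1 s) ((lam : ℂ) * rf (q.2.1 u)) ≤ 1 / ((m : ℝ) + 1) := by
        intro m
        apply hK m s
        intro u _
        exact (q.1.norm_coe_le_norm u).trans_lt hr
      choose u hu1 hu2 using h1
      obtain ⟨v, -, φ, hφ, hv⟩ := isCompact_univ.tendsto_subseq (fun m => Set.mem_univ (u m))
      have h0 : Tendsto (fun m : ℕ => 1 / (((φ m : ℕ) : ℝ) + 1)) atTop (𝓝 0) :=
        tendsto_one_div_add_atTop_nhds_zero_nat.comp hφ.tendsto_atTop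
      have hv' : Tendsto (fun m => ((u (φ m) : unitInterval) : ℝ)) atTop (𝓝 (v : ℝ)) :=
        (continuous_subtype_val.tendsto v).comp hv
      refine ⟨v, ?_, ?_⟩
      · have h2 : Tendsto (fun m => |((u (φ m) : unitInterval) : ℝ) * L + s - L|) atTop
            (𝓝 |(v : ℝ) * L + s - L|) :=
          (((hv'.mul_const L).add_const _).sub_const L).abs
        have h3 : |(v : ℝ) * L + s - L| ≤ 0 := le_of_tendsto_of_tendsto' h2 h0 fun m => hu1 (φ m)
        exact abs_nonpos_iff.mp h3
      · have hc : Continuous fun w : unitInterval => (lam : ℂ) * rf (q.2.1 w) :=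
          continuous_const.mul (rf_cont.comp q.2.1.continuous)
        have h2 : Tendsto (fun m => dist (q.1 s) ((lam : ℂ) * rf (q.2.1 (u (φ m))))) atTop
            (𝓝 (dist (q.1 s) ((lam : ℂ) * rf (q.2.1 v)))) :=
          tendsto_const_nhds.dist ((hc.tendsto v).comp hv)
        have h3 : dist (q.1 s) ((lam : ℂ) * rf (q.2.1 v)) ≤ 0 :=
          le_of_tendsto_of_tendsto' h2 h0 fun m => hu2 (φ m)
        exact dist_le_zero.mp h3
    obtain ⟨u1, hu1, -⟩ := key 1
    have hu1' : L * (1 - (u1 : ℝ)) = 1 := by
      have : ((1 : unitInterval) : ℝ) = 1 := rfl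
      rw [this] at hu1
      linarith
    have hu0 := u1.2.1
    have hu2 := u1.2.2
    have hLpos : 0 < L := by
      by_contra h
      push Not at h
      have : L * (1 - (u1 : ℝ)) ≤ 0 := mul_nonpos_of_nonpos_of_nonneg h (by linarith)
      linarith
    have hL1 : 1 ≤ L := by nlinarith
    refine ⟨?_, hL1, ?_⟩
    · by_contra h
      push Not at h
      have : L ≤ 0 := mul_nonpos_of_nonneg_of_nonpos hlp.le h
      linarith
    · intro s u hu
      obtain ⟨v, hv1, hv2⟩ := key s
      have : v = u := by
        apply Subtype.ext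
        rw [hu]
        show (v : ℝ) = 1 - s / L
        field_simp
        linarith
      rw [← this]
      exact hv2

end Pool.Agent.L0h76.HT
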