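import Pool.Agent.L0h89.HT.StmL
import Pool.Agent.L0h76.HT.E

/-!
# HT, module KLO: the local form of the last clause of `S_KCL`
-/

set_option autoImplicit false

namespace Pool.Agent.L0h76.HT

open Pool.Agent.L0h89.HT MeasureTheory Filter Topology

theorem s_KLO : S_KLO := by
  intro r lam q hlam hq hK s hs
  set L : ℝ := lam ^ (7/4 : ℝ) * q.2.2 with hL
  have hlp : 0 < lam ^ (7/4 : ℝ) := Real.rpow_pos_of_pos hlam _
  have hLpos : 0 < L := mul_pos hlp hq
  have h1 : ∀ m : ℕ, ∃ u : unitInterval, |(u : ℝ) * L + s - L| ≤ 1 / ((m : ℝ) + 1) ∧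
      dist (q.1 s) ((lam : ℂ) * rf (q.2.1 u)) ≤ 1 / ((m : ℝ) + 1) := by
    intro m
    exact hK m s hs
  choose u hu1 hu2 using h1
  obtain ⟨v, -, φ, hφ, hv⟩ := isCompact_univ.tendsto_subseq (fun m => Set.mem_univ (u m))
  have h0 : Tendsto (fun m : ℕ => 1 / (((φ m : ℕ) : ℝ) + 1)) atTop (𝓝 0) :=
    tendsto_one_div_add_atTop_nhds_zero_nat.comp hφ.tendsto_atTop
  have hv' : Tendsto (fun m => ((u (φ m) : unitInterval) : ℝ)) atTop (𝓝 (v : ℝ)) :=
    (continuous_subtype_val.tendsto v).comp hv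
  have hv1 : (v : ℝ) * L + s - L = 0 := by
    have h2 : Tendsto (fun m => |((u (φ m) : unitInterval) : ℝ) * L + s - L|) atTop
        (𝓝 |(v : ℝ) * L + s - L|) :=
      (((hv'.mul_const L).add_const _).sub_const L).abs
    have h3 : |(v : ℝ) * L + s - L| ≤ 0 := le_of_tendsto_of_tendsto' h2 h0 fun m => hu1 (φ m)
    exact abs_nonpos_iff.mp h3
  have hv2 : q.1 s = (lam : ℂ) * rf (q.2.1 v) := by
    have hc : Continuous fun w : unitInterval => (lam : ℂ) * rf (q.2.1 w) :=
      continuous_const.mul (rf_cont.comp q.2.1.continuous)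
    have h2 : Tendsto (fun m => dist (q.1 s) ((lam : ℂ) * rf (q.2.1 (u (φ m))))) atTop
        (𝓝 (dist (q.1 s) ((lam : ℂ) * rf (q.2.1 v)))) :=
      tendsto_const_nhds.dist ((hc.tendsto v).comp hv)
    have h3 : dist (q.1 s) ((lam : ℂ) * rf (q.2.1 v)) ≤ 0 :=
      le_of_tendsto_of_tendsto' h2 h0 fun m => hu2 (φ m)
    exact dist_le_zero.mp h3
  refine ⟨?_, ?_⟩
  · have := mul_nonneg v.2.1 hLpos.le
    linarith
  · intro w hw
    have : v = w := by
      apply Subtype.ext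
      rw [hw]
      field_simp
      linarith
    rw [← this]
    exact hv2

end Pool.Agent.L0h76.HT
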