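import Pool.Agent.L0h76.HT.TAU

/-!
# HT: consequences of `Rev`, logarithms
-/

set_option autoImplicit false

namespace Pool.Agent.L0h76.HT

open Pool.Agent.L0h89.HT MeasureTheory Filter Topology
open scoped ENNReal NNReal Pointwise

lemma rf_isometry : Isometry rf := by
  apply Isometry.of_dist_eq
  intro z w
  have h : ∀ z : ℂ, rf z = -(starRingEnd ℂ z) := by
    intro z; unfold rf; apply Complex.ext <;> simp
  rw [h, h, dist_neg_neg, Complex.dist_conj_conj]

/-- the length of the natural time of the rescaled curve -/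
noncomputable def Len (lam : ℝ) (p : H984N.X) : ℝ := lam ^ (7/4 : ℝ) * p.2

lemma rev_val {lam : ℝ} {f : C(unitInterval, ℂ)} {p : H984N.X} (h : Rev lam f p)
    (s : unitInterval) : f s = (lam : ℂ) * rf (p.1 (tau (Len lam p) s)) :=
  h.2.2 s _ (tau_val h.2.1 s)

lemma rev_dist {lam : ℝ} (hlam : 0 < lam) {f : C(unitInterval, ℂ)} {p : H984N.X} (h : Rev lam f p)
    (s t : unitInterval) : dist (f s) (f t) =
      lam * dist (p.1 (tau (Len lam p) s)) (p.1 (tau (Len lam p) t)) := by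
  rw [rev_val h s, rev_val h t, dist_eq_norm, ← mul_sub, norm_mul, ← dist_eq_norm,
    rf_isometry.dist_eq, Complex.norm_real, Real.norm_eq_abs, abs_of_pos hlam]

lemma rev_diam {lam : ℝ} (hlam : 0 < lam) {f : C(unitInterval, ℂ)} {p : H984N.X} (h : Rev lam f p)
    (S : Set unitInterval) : Metric.diam (f '' S) =
      lam * Metric.diam (p.1 '' (tau (Len lam p) '' S)) := by
  have h1 : f '' S = lam • (rf '' (p.1 '' (tau (Len lam p) '' S))) := by
    ext z
    simp only [Set.mem_image, Set.mem_smul_set, exists_exists_and_eq_and]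
    constructor
    · rintro ⟨s, hs, rfl⟩
      exact ⟨s, hs, by rw [rev_val h s, Complex.real_smul]⟩
    · rintro ⟨s, hs, rfl⟩
      exact ⟨s, hs, by rw [rev_val h s, Complex.real_smul]⟩
  rw [h1, diam_smul₀, rf_isometry.diam_image, Real.norm_eq_abs, abs_of_pos hlam]

/-- `κ = lam ^ (-7/4)` -/
noncomputable def kap (lam : ℝ) : ℝ := lam ^ (-(7/4) : ℝ)

lemma kap_pos {lam : ℝ} (hlam : 0 < lam) : 0 < kap lam := Real.rpow_pos_of_pos hlam _

lemma kap_Len {lam : ℝ} (hlam : 0 < lam) (p : H984N.X) : kap lam * Len lam p = p.2 := by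
  unfold kap Len
  rw [← mul_assoc, ← Real.rpow_add hlam]
  norm_num

lemma log_tendsto : Tendsto (fun h : ℝ => Real.log (1 / h)) (𝓝[>] 0) atTop := by
  have h1 : Tendsto (fun h : ℝ => 1 / h) (𝓝[>] 0) atTop := by
    simp only [one_div]
    exact tendsto_inv_nhdsGT_zero
  exact Real.tendsto_log_atTop.comp h1

lemma log_facts {κ : ℝ} (hκ : 0 < κ) : ∀ᶠ h : ℝ in 𝓝[>] 0, 0 < h ∧ 0 < Real.log (1 / h) ∧
    Real.log (1 / h) / 2 ≤ Real.log (1 / (κ * h)) ∧
    Real.log (1 / (κ * h)) ≤ 2 * Real.log (1 / h) := by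
  filter_upwards [self_mem_nhdsWithin, log_tendsto.eventually_ge_atTop (2 * |Real.log κ| + 1)]
    with h hh hl
  have hh' : (0 : ℝ) < h := hh
  have h1 : Real.log (1 / (κ * h)) = Real.log (1 / h) - Real.log κ := by
    rw [one_div, one_div, Real.log_inv, Real.log_inv, Real.log_mul hκ.ne' hh'.ne']
    ring
  have h2 := abs_nonneg (Real.log κ)
  have h3 := le_abs_self (Real.log κ)
  have h4 := neg_abs_le (Real.log κ)
  refine ⟨hh', by linarith, ?_, ?_⟩
  · rw [h1]; linarith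
  · rw [h1]; linarith

lemma two_rpow_le {a x : ℝ} (ha0 : 0 ≤ a) (ha1 : a ≤ 1) (hx : 0 ≤ x) :
    (2 * x) ^ a ≤ 2 * x ^ a := by
  rw [Real.mul_rpow (by norm_num) hx]
  have : (2 : ℝ) ^ a ≤ 2 ^ (1 : ℝ) := Real.rpow_le_rpow_of_exponent_le (by norm_num) ha1
  rw [Real.rpow_one] at this
  have h2 : 0 ≤ x ^ a := Real.rpow_nonneg hx a
  nlinarith

lemma half_rpow_le {a x : ℝ} (ha0 : 0 ≤ a) (ha1 : a ≤ 1) (hx : 0 ≤ x) :
    x ^ a / 2 ≤ (x / 2) ^ a := by
  have h := two_rpow_le ha0 ha1 (by linarith : 0 ≤ x / 2)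
  have e : 2 * (x / 2) = x := by ring
  rw [e] at h
  linarith

lemma kap_rpow {lam h : ℝ} (hlam : 0 < lam) (hh : 0 < h) :
    lam * (kap lam * h) ^ (4/7 : ℝ) = h ^ (4/7 : ℝ) := by
  rw [Real.mul_rpow (kap_pos hlam).le hh.le, kap, ← Real.rpow_mul hlam.le, ← mul_assoc]
  have : (-(7 / 4) : ℝ) * (4 / 7) = -1 := by norm_num
  rw [this, Real.rpow_neg_one, mul_inv_cancel₀ hlam.ne', one_mul]

lemma kap_tendsto {lam : ℝ} (hlam : 0 < lam) :
    Tendsto (fun h : ℝ => kap lam * h) (𝓝[>] 0) (𝓝[>] 0) := by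
  rw [tendsto_nhdsWithin_iff]
  constructor
  · have : Tendsto (fun h : ℝ => kap lam * h) (𝓝 0) (𝓝 (kap lam * 0)) :=
      (continuous_const.mul continuous_id).tendsto 0
    rw [mul_zero] at this
    exact this.mono_left nhdsWithin_le_nhds
  · filter_upwards [self_mem_nhdsWithin] with h hh
    exact mul_pos (kap_pos hlam) hh

end Pool.Agent.L0h76.HT
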