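import Pool.Agent.L0h89.HT.Pred

/-!
# HT, module TAU: facts on the time change
-/

set_option autoImplicit false

namespace Pool.Agent.L0h76.HT

open Pool.Agent.L0h89.HT MeasureTheory Filter Topology
open scoped ENNReal NNReal

lemma tau_val {L : ℝ} (hL : 1 ≤ L) (s : unitInterval) : (tau L s : ℝ) = 1 - s / L := by
  unfold tau
  have h1 : 0 ≤ (s : ℝ) / L := div_nonneg s.2.1 (by linarith)
  have h2 : (s : ℝ) / L ≤ 1 := by
    rw [div_le_one (by linarith)]
    exact s.2.2.trans hL
  rw [Set.projIcc_of_mem zero_le_one (⟨by linarith, by linarith⟩ : 1 - (s : ℝ) / L ∈ Set.Icc (0:ℝ) 1)]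

lemma tau_cont {L : ℝ} : Continuous (tau L) := by
  unfold tau
  exact continuous_projIcc.comp (continuous_const.sub (continuous_subtype_val.div_const L))

lemma tau_inj {L : ℝ} (hL : 1 ≤ L) : Function.Injective (tau L) := by
  intro s t h
  have h1 : (tau L s : ℝ) = tau L t := congrArg Subtype.val h
  rw [tau_val hL, tau_val hL] at h1
  apply Subtype.ext
  have h2 : (s : ℝ) / L = t / L := by linarith
  have hL' : (L : ℝ) ≠ 0 := by positivity
  field_simp at h2
  exact h2

lemma tau_emb {L : ℝ} (hL : 1 ≤ L) : MeasurableEmbedding (tau L) :=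
  (tau_cont.isClosedEmbedding (tau_inj hL)).measurableEmbedding

lemma tau_dist {L : ℝ} (hL : 1 ≤ L) (s t : unitInterval) :
    dist (tau L s) (tau L t) = dist s t / L := by
  rw [Subtype.dist_eq, Subtype.dist_eq, tau_val hL, tau_val hL, Real.dist_eq, Real.dist_eq]
  have : (1 - (s : ℝ) / L) - (1 - t / L) = -(((s : ℝ) - t) / L) := by ring
  rw [this, abs_neg, abs_div, abs_of_pos (by linarith : (0:ℝ) < L)]

lemma tau_le {L : ℝ} (hL : 1 ≤ L) {s t : unitInterval} : tau L s ≤ tau L t ↔ t ≤ s := by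
  rw [← Subtype.coe_le_coe, ← Subtype.coe_le_coe, tau_val hL, tau_val hL]
  have hL' : (0 : ℝ) < L := by linarith
  constructor
  · intro h
    have : (t : ℝ) / L ≤ s / L := by linarith
    exact (div_le_div_iff_of_pos_right hL').mp this
  · intro h
    have : (t : ℝ) / L ≤ s / L := (div_le_div_iff_of_pos_right hL').mpr h
    linarith

lemma tau_lt {L : ℝ} (hL : 1 ≤ L) {s t : unitInterval} : tau L s < tau L t ↔ t < s := by
  rw [lt_iff_not_ge, lt_iff_not_ge, tau_le hL]

/-- inverse of the time change -/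
lemma tau_surj {L : ℝ} (hL : 1 ≤ L) {v : unitInterval} (hv : tau L 1 ≤ v) :
    ∃ s : unitInterval, tau L s = v := by
  have hL' : (0 : ℝ) < L := by linarith
  have h1 : 1 - 1 / L ≤ (v : ℝ) := by
    have := Subtype.coe_le_coe.mpr hv
    rw [tau_val hL] at this
    exact this
  have h2 : L * (1 - (v : ℝ)) ≤ 1 := by
    have h3 : L * (1 - (v : ℝ)) ≤ L * (1 / L) := by
      apply mul_le_mul_of_nonneg_left _ hL'.le
      linarith
    rwa [mul_one_div_cancel hL'.ne'] at h3
  have h3 : 0 ≤ L * (1 - (v : ℝ)) := mul_nonneg hL'.le (by linarith [v.2.2])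
  refine ⟨⟨L * (1 - (v : ℝ)), h3, h2⟩, ?_⟩
  apply Subtype.ext
  rw [tau_val hL]
  show 1 - L * (1 - (v : ℝ)) / L = v
  rw [mul_div_assoc, mul_div_cancel₀ _ hL'.ne'] <;> try ring

lemma tau_image_Icc {L : ℝ} (hL : 1 ≤ L) (a b : unitInterval) :
    tau L '' Set.Icc a b = Set.Icc (tau L b) (tau L a) := by
  ext v
  constructor
  · rintro ⟨s, hs, rfl⟩
    exact ⟨(tau_le hL).mpr hs.2, (tau_le hL).mpr hs.1⟩
  · intro hv
    have h1 : tau L 1 ≤ v := le_trans ((tau_le hL).mpr unitInterval.le_one') hv.1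
    obtain ⟨s, rfl⟩ := tau_surj hL h1
    exact ⟨s, ⟨(tau_le hL).mp hv.2, (tau_le hL).mp hv.1⟩, rfl⟩

lemma tau_zero (L : ℝ) : tau L 0 = 1 := by
  unfold tau
  have : (1 : ℝ) - ((0 : unitInterval) : ℝ) / L = 1 := by simp
  rw [this]
  exact Set.projIcc_of_right_le zero_le_one le_rfl

lemma tau_range {L : ℝ} (hL : 1 ≤ L) : Set.range (tau L) = Set.Icc (tau L 1) 1 := by
  rw [← Set.image_univ]
  have : (Set.univ : Set unitInterval) = Set.Icc 0 1 := by
    ext x; simp [unitInterval.le_one', unitInterval.nonneg']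
  rw [this, tau_image_Icc hL, tau_zero]

lemma vol_val (A : Set unitInterval) :
    (volume : Measure unitInterval) A = (volume : Measure ℝ) (Subtype.val '' A) :=
  (MeasurableEmbedding.subtype_coe measurableSet_Icc).comap_apply _ _

lemma vol_image {L : ℝ} (hL : 1 ≤ L) (S : Set unitInterval) :
    volume (tau L '' S) = ENNReal.ofReal (1 / L) * volume S := by
  have hL' : (0 : ℝ) < L := by linarith
  rw [vol_val, vol_val]
  have h1 : (Subtype.val '' (tau L '' S) : Set ℝ) =
      (fun x : ℝ => L * x) ⁻¹' ((fun y : ℝ => L + -y) ⁻¹' (Subtype.val '' S)) := by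
    ext x
    simp only [Set.mem_image, Set.mem_preimage, exists_exists_and_eq_and]
    constructor
    · rintro ⟨s, hs, rfl⟩
      refine ⟨s, hs, ?_⟩
      rw [tau_val hL]
      field_simp
      ring
    · rintro ⟨s, hs, h⟩
      refine ⟨s, hs, ?_⟩
      rw [tau_val hL, h]
      field_simp
      ring
  rw [h1, Real.volume_preimage_mul_left hL'.ne', abs_of_pos (inv_pos.mpr hL'), one_div]
  congr 1
  have h2 : (fun y : ℝ => L + -y) ⁻¹' (Subtype.val '' S) =
      Neg.neg ⁻¹' ((fun y : ℝ => L + y) ⁻¹' (Subtype.val '' S)) := rfl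
  rw [h2, Measure.measure_preimage_neg, measure_preimage_add]

lemma map_tau {L : ℝ} (hL : 1 ≤ L) : (volume : Measure unitInterval).map (tau L) =
    ENNReal.ofReal L • (volume : Measure unitInterval).restrict (Set.Icc (tau L 1) 1) := by
  have hL' : (0 : ℝ) < L := by linarith
  ext A hA
  rw [Measure.map_apply tau_cont.measurable hA, Measure.smul_apply, Measure.restrict_apply hA,
    ← tau_range hL]
  have h1 : A ∩ Set.range (tau L) = tau L '' (tau L ⁻¹' A) := by
    rw [Set.image_preimage_eq_inter_range]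
  rw [h1, vol_image hL, smul_eq_mul, ← mul_assoc, ← ENNReal.ofReal_mul hL'.le,
    mul_one_div_cancel hL'.ne', ENNReal.ofReal_one, one_mul]

lemma dim_tau {L : ℝ} (hL : 1 ≤ L) (S : Set unitInterval) : dimH (tau L '' S) = dimH S := by
  have hL' : (0 : ℝ) < L := by linarith
  apply le_antisymm
  · have h1 : LipschitzWith 1 (tau L) := by
      apply LipschitzWith.of_dist_le_mul
      intro s t
      rw [tau_dist hL, NNReal.coe_one, one_mul]
      exact div_le_self dist_nonneg hL
    exact h1.dimH_image_le S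
  · have h1 : AntilipschitzWith (Real.toNNReal L) (tau L) := by
      apply AntilipschitzWith.of_le_mul_dist
      intro s t
      rw [tau_dist hL, Real.coe_toNNReal L hL'.le]
      field_simp
      exact le_rfl
    exact h1.le_dimH_image S

theorem s_TAU : S_TAU := fun _ hL =>
  ⟨tau_val hL, tau_emb hL, tau_range hL, map_tau hL, vol_image hL, dim_tau hL⟩

end Pool.Agent.L0h76.HT
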