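import Pool.Agent.L0h76.HT.KLO

/-!
# HT, module UNQ: uniqueness of the rectangle limit gives uniqueness of the half-plane limit
-/

set_option autoImplicit false

namespace Pool.Agent.L0h76.HT

open Pool.Agent.L0h89.HT MeasureTheory Filter Topology

/-- the time parameter of the reversed curve -/
noncomputable def rpar (lam : ℝ) (x : H984N.X × unitInterval) : unitInterval :=
  Set.projIcc 0 1 zero_le_one (1 - (x.2 : ℝ) / max 1 (lam ^ (7/4 : ℝ) * x.1.2))

lemma rpar_cont (lam : ℝ) : Continuous (rpar lam) := by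
  unfold rpar
  refine continuous_projIcc.comp (continuous_const.sub (Continuous.div₀ ?_ ?_ ?_))
  · exact continuous_subtype_val.comp continuous_snd
  · exact continuous_const.max (continuous_const.mul (continuous_snd.comp continuous_fst))
  · intro x
    have : (1:ℝ) ≤ max 1 (lam ^ (7/4 : ℝ) * x.1.2) := le_max_left _ _
    linarith

/-- the reversed curve, as a continuous function of the curve and its time -/
noncomputable def rcur (lam : ℝ) : C(H984N.X, C(unitInterval, ℂ)) :=
  ContinuousMap.curry ⟨fun x : H984N.X × unitInterval => (lam : ℂ) * rf (x.1.1 (rpar lam x)), by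
    refine continuous_const.mul (rf_cont.comp ?_)
    exact Continuous.eval (continuous_fst.comp continuous_fst) (rpar_cont lam)⟩

lemma rcur_apply (lam : ℝ) (p : H984N.X) (s : unitInterval) :
    rcur lam p s = (lam : ℂ) * rf (p.1 (rpar lam (p, s))) := rfl

lemma rpar_val {lam : ℝ} {p : H984N.X} (h : 1 ≤ lam ^ (7/4 : ℝ) * p.2) (s : unitInterval) :
    (rpar lam (p, s) : ℝ) = 1 - (s : ℝ) / (lam ^ (7/4 : ℝ) * p.2) := by
  have h0 : (0:ℝ) < lam ^ (7/4 : ℝ) * p.2 := by linarith
  unfold rpar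
  simp only
  rw [max_eq_right h, Set.projIcc_of_mem _ ⟨?_, ?_⟩]
  · rw [sub_nonneg, div_le_one h0]
    exact s.2.2.trans h
  · have : 0 ≤ (s : ℝ) / (lam ^ (7/4 : ℝ) * p.2) := div_nonneg s.2.1 h0.le
    linarith

/-- the set of the curves in the rectangle whose reversed curve is in `A` and small -/
def BB (lam r : ℝ) (A : Set C(unitInterval, ℂ)) : Set H984N.X :=
  {p | 1 ≤ lam ^ (7/4 : ℝ) * p.2} ∩ (rcur lam) ⁻¹' (A ∩ {f | ‖f‖ < r})

lemma meas_norm_lt (r : ℝ) : MeasurableSet {f : C(unitInterval, ℂ) | ‖f‖ < r} :=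
  (isOpen_lt continuous_norm continuous_const).measurableSet

lemma BB_meas (lam r : ℝ) {A : Set C(unitInterval, ℂ)} (hA : MeasurableSet A) :
    MeasurableSet (BB lam r A) := by
  refine MeasurableSet.inter ?_ ?_
  · exact (isClosed_le continuous_const (continuous_const.mul continuous_snd)).measurableSet
  · exact (rcur lam).continuous.measurable (hA.inter (meas_norm_lt r))

/-- the curve determines, and is determined by, the reversed curve -/
lemma mem_iff (h2 : S_KLO) {r lam : ℝ} {q : C(unitInterval, ℂ) × H984N.X} (hlam : 0 < lam)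
    (hr : 0 < r) (hq : 0 < q.2.2) (h0 : q.1 0 = 0)
    (hK : ∀ m : ℕ, q ∈ K r lam (1 / ((m : ℝ) + 1))) (A : Set C(unitInterval, ℂ)) :
    q.1 ∈ A ∩ {f | ‖f‖ < r} ↔ q.2 ∈ BB lam r A := by
  have hloc := h2 r lam q hlam hq hK
  -- equality as long as the curve is small
  have heq : 1 ≤ lam ^ (7/4 : ℝ) * q.2.2 → ∀ s : unitInterval,
      (∀ v : unitInterval, v ≤ s → ‖q.1 v‖ < r) → q.1 s = rcur lam q.2 s := by
    intro hL s hs
    rw [rcur_apply]
    exact (hloc s hs).2 _ (rpar_val hL s)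
  constructor
  · rintro ⟨hA, hn⟩
    have hn' : ∀ v : unitInterval, ‖q.1 v‖ < r := fun v => (q.1.norm_coe_le_norm v).trans_lt hn
    have hL : 1 ≤ lam ^ (7/4 : ℝ) * q.2.2 := by
      have := (hloc 1 (fun v _ => hn' v)).1
      simpa using this
    have hf : q.1 = rcur lam q.2 := by
      ext s
      exact heq hL s (fun v _ => hn' v)
    exact ⟨hL, by rw [Set.mem_preimage, ← hf]; exact ⟨hA, hn⟩⟩
  · rintro ⟨hL, hA, hn⟩
    have hL' : 1 ≤ lam ^ (7/4 : ℝ) * q.2.2 := hL
    have hn' : ∀ v : unitInterval, ‖rcur lam q.2 v‖ < r :=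
      fun v => ((rcur lam q.2).norm_coe_le_norm v).trans_lt hn
    -- the curve never leaves
    have hall : ∀ v : unitInterval, ‖q.1 v‖ < r := by
      by_contra hcon
      push Not at hcon
      set S : Set unitInterval := {v | r ≤ ‖q.1 v‖} with hS
      have hSc : IsClosed S := isClosed_le continuous_const q.1.continuous.norm
      have hSne : S.Nonempty := hcon
      obtain ⟨s, hs, hmin⟩ := hSc.isCompact.exists_isLeast hSne
      have hs0 : (0 : unitInterval) < s := by
        rcases eq_or_lt_of_le (show (0 : unitInterval) ≤ s from s.2.1) with h | h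
        · exfalso
          have h3 : r ≤ ‖q.1 s‖ := hs
          rw [← h, h0, norm_zero] at h3
          linarith
        · exact h
      have hlt : ∀ v : unitInterval, v < s → ‖q.1 v‖ < r := by
        intro v hv
        by_contra h4
        push Not at h4
        exact absurd (hmin h4) (not_le.mpr hv)
      have hE : ∀ v : unitInterval, v < s → q.1 v = rcur lam q.2 v := by
        intro v hv
        exact heq hL' v (fun w hw => hlt w (hw.trans_lt hv))
      have hEs : q.1 s = rcur lam q.2 s := by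
        have hcl : IsClosed {v : unitInterval | q.1 v = rcur lam q.2 v} :=
          isClosed_eq q.1.continuous (rcur lam q.2).continuous
        have hmem : s ∈ closure (Set.Iio s) := by
          have h6 := closure_Iio' (a := s) ⟨0, hs0⟩
          rw [h6]
          exact Set.mem_Iic.mpr le_rfl
        have hsub : Set.Iio s ⊆ {v : unitInterval | q.1 v = rcur lam q.2 v} := fun v hv => hE v hv
        exact hcl.closure_subset_iff.mpr hsub hmem
      have h5 : r ≤ ‖q.1 s‖ := hs
      rw [hEs] at h5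
      exact absurd (hn' s) (not_lt.mpr h5)
    have hf : q.1 = rcur lam q.2 := by
      ext s
      exact heq hL' s (fun v _ => hall v)
    rw [hf]
    exact ⟨hA, hn⟩

/-- the mass of `A` among the small curves -/
lemma mass_eq (h1 : S_JNTR) (h2 : S_KLO) (R : H984N.Rect)
    (hpos : ∀ ν : ProbabilityMeasure H984N.X, IsLimN R ν → ∀ᵐ p ∂(ν : Measure H984N.X), 0 < p.2)
    {μ : ProbabilityMeasure C(unitInterval, ℂ)} (hμ : IsLimH μ) {lam : ℝ} (hlam : 0 < lam)
    {A : Set C(unitInterval, ℂ)} (hA : MeasurableSet A) :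
    ∃ ν : ProbabilityMeasure H984N.X, IsLimN R ν ∧
      (μ : Measure C(unitInterval, ℂ)) (A ∩ {f | ‖f‖ < lam * (min R.A (min R.B R.H)) / 2}) =
        (ν : Measure H984N.X) (BB lam (lam * (min R.A (min R.B R.H)) / 2) A) := by
  set ρ : ℝ := min R.A (min R.B R.H) with hρ
  have hρ0 : 0 < ρ := lt_min R.hA (lt_min R.hB R.hH)
  set r : ℝ := lam * ρ / 2 with hr
  have hr0 : 0 < r := by positivity
  have hrl : r < lam * ρ := by
    have : 0 < lam * ρ := by positivity
    rw [hr]; linarith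
  obtain ⟨P, hP1, ⟨ν, hν, hP2⟩, hP3⟩ := h1 R ρ lam r hρ0 (min_le_left _ _)
    ((min_le_right _ _).trans (min_le_left _ _)) ((min_le_right _ _).trans (min_le_right _ _))
    hlam hrl μ hμ
  refine ⟨ν, hν, ?_⟩
  have e1 : Measurable (Prod.fst : C(unitInterval, ℂ) × H984N.X → C(unitInterval, ℂ)) :=
    measurable_fst
  have e2 : Measurable (Prod.snd : C(unitInterval, ℂ) × H984N.X → H984N.X) := measurable_snd
  have hA' : MeasurableSet (A ∩ {f : C(unitInterval, ℂ) | ‖f‖ < r}) := hA.inter (meas_norm_lt r)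
  rw [← hP1, ← hP2, Measure.map_apply e1 hA', Measure.map_apply e2 (BB_meas lam r hA)]
  apply measure_congr
  have f1 : ∀ᵐ q ∂(P : Measure (C(unitInterval, ℂ) × H984N.X)), q.1 0 = 0 := by
    obtain ⟨φ, hφ, hlim⟩ := hμ
    have h3 := H984H.lim_start hφ hlim
    rw [← hP1] at h3
    exact ae_of_ae_map e1.aemeasurable h3
  have f2 : ∀ᵐ q ∂(P : Measure (C(unitInterval, ℂ) × H984N.X)), 0 < q.2.2 := by
    have h3 := hpos ν hν
    rw [← hP2] at h3
    exact ae_of_ae_map e2.aemeasurable h3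
  have f3 : ∀ᵐ q ∂(P : Measure (C(unitInterval, ℂ) × H984N.X)),
      ∀ m : ℕ, q ∈ K r lam (1 / ((m : ℝ) + 1)) := by
    rw [ae_all_iff]
    intro m
    exact hP3 _ (by positivity)
  filter_upwards [f1, f2, f3] with q g1 g2 g3
  have := mem_iff h2 hlam hr0 g2 g1 g3 A
  exact propext this

theorem s_unq (h1 : S_JNTR) (h2 : S_KLO) : S_UNQ := by
  intro R hpos huniq μ μ' hμ hμ'
  set ρ : ℝ := min R.A (min R.B R.H) with hρ
  have hρ0 : 0 < ρ := lt_min R.hA (lt_min R.hB R.hH)
  have key : ∀ (n : ℕ) (A : Set C(unitInterval, ℂ)), MeasurableSet A →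
      (μ : Measure C(unitInterval, ℂ)) (A ∩ {f | ‖f‖ < ((n : ℝ) + 1) * ρ / 2}) =
        (μ' : Measure C(unitInterval, ℂ)) (A ∩ {f | ‖f‖ < ((n : ℝ) + 1) * ρ / 2}) := by
    intro n A hA
    have hl : (0:ℝ) < (n : ℝ) + 1 := by positivity
    obtain ⟨ν, hν, e⟩ := mass_eq h1 h2 R hpos hμ hl hA
    obtain ⟨ν', hν', e'⟩ := mass_eq h1 h2 R hpos hμ' hl hA
    rw [e, e', huniq ν ν' hν hν']
  have hU : ∀ A : Set C(unitInterval, ℂ),
      A = ⋃ n : ℕ, A ∩ {f : C(unitInterval, ℂ) | ‖f‖ < ((n : ℝ) + 1) * ρ / 2} := by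
    intro A
    ext f
    simp only [Set.mem_iUnion, Set.mem_inter_iff]
    constructor
    · intro hf
      obtain ⟨n, hn⟩ := exists_nat_gt (‖f‖ * 2 / ρ)
      refine ⟨n, hf, ?_⟩
      rw [div_lt_iff₀ hρ0] at hn
      show ‖f‖ < ((n : ℝ) + 1) * ρ / 2
      nlinarith
    · rintro ⟨n, hf, -⟩
      exact hf
  have hmono : ∀ A : Set C(unitInterval, ℂ),
      Monotone fun n : ℕ => A ∩ {f : C(unitInterval, ℂ) | ‖f‖ < ((n : ℝ) + 1) * ρ / 2} := by
    intro A m n hmn f hf
    have hf2 : ‖f‖ < ((m : ℝ) + 1) * ρ / 2 := hf.2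
    refine ⟨hf.1, ?_⟩
    show ‖f‖ < ((n : ℝ) + 1) * ρ / 2
    refine lt_of_lt_of_le hf2 ?_
    have : (m : ℝ) ≤ n := by exact_mod_cast hmn
    have h3 : ((m : ℝ) + 1) * ρ ≤ ((n : ℝ) + 1) * ρ := mul_le_mul_of_nonneg_right (by linarith) hρ0.le
    linarith
  apply Subtype.ext
  refine Measure.ext fun A hA => ?_
  rw [hU A]
  show (μ : Measure C(unitInterval, ℂ)) _ = (μ' : Measure C(unitInterval, ℂ)) _
  rw [(hmono A).measure_iUnion, (hmono A).measure_iUnion]
  exact iSup_congr fun n => key n A hA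

end Pool.Agent.L0h76.HT
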