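import Pool.Agent.L0h76.HT.Rv

/-!
# HT, modules ZMOD and ZSLO
-/

set_option autoImplicit false

namespace Pool.Agent.L0h76.HT

open Pool.Agent.L0h89.HT MeasureTheory Filter Topology
open scoped ENNReal NNReal

lemma mod_facts {lam : ℝ} (hlam : 0 < lam) : ∀ᶠ h : ℝ in 𝓝[>] 0,
    lam * ((kap lam * h) ^ (4/7 : ℝ) * Real.log (1 / (kap lam * h)) ^ (3/7 : ℝ)) ≤
      2 * (h ^ (4/7 : ℝ) * Real.log (1 / h) ^ (3/7 : ℝ)) ∧
    (h ^ (4/7 : ℝ) * Real.log (1 / h) ^ (3/7 : ℝ)) / 2 ≤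
      lam * ((kap lam * h) ^ (4/7 : ℝ) * Real.log (1 / (kap lam * h)) ^ (3/7 : ℝ)) := by
  filter_upwards [log_facts (kap_pos hlam)] with h ⟨hh, hl, h1, h2⟩
  rw [← mul_assoc, kap_rpow hlam hh]
  have h3 : 0 ≤ h ^ (4/7 : ℝ) := Real.rpow_nonneg hh.le _
  constructor
  · have h4 : Real.log (1 / (kap lam * h)) ^ (3/7 : ℝ) ≤ 2 * Real.log (1 / h) ^ (3/7 : ℝ) :=
      (Real.rpow_le_rpow (by linarith) h2 (by norm_num)).trans
        (two_rpow_le (by norm_num) (by norm_num) hl.le)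
    calc _ ≤ h ^ (4/7 : ℝ) * (2 * Real.log (1 / h) ^ (3/7 : ℝ)) := by gcongr
      _ = _ := by ring
  · have h4 : Real.log (1 / h) ^ (3/7 : ℝ) / 2 ≤ Real.log (1 / (kap lam * h)) ^ (3/7 : ℝ) :=
      (half_rpow_le (by norm_num) (by norm_num) hl.le).trans
        (Real.rpow_le_rpow (by linarith) h1 (by norm_num))
    calc _ = h ^ (4/7 : ℝ) * (Real.log (1 / h) ^ (3/7 : ℝ) / 2) := by ring
      _ ≤ _ := by gcongr

lemma chi_facts {lam : ℝ} (hlam : 0 < lam) : ∀ᶠ h : ℝ in 𝓝[>] 0,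
    lam * chi (kap lam * h) ≤ 2 * chi h ∧ chi h / 2 ≤ lam * chi (kap lam * h) := by
  filter_upwards [log_facts (kap_pos hlam)] with h ⟨hh, hl, h1, h2⟩
  unfold chi
  rw [← mul_div_assoc, kap_rpow hlam hh]
  have h3 : 0 ≤ h ^ (4/7 : ℝ) := Real.rpow_nonneg hh.le _
  have hp : 0 < Real.log (1 / h) ^ (1/14 : ℝ) := Real.rpow_pos_of_pos hl _
  have hp' : 0 < Real.log (1 / (kap lam * h)) ^ (1/14 : ℝ) :=
    Real.rpow_pos_of_pos (by linarith) _
  constructor
  · have h4 : Real.log (1 / h) ^ (1/14 : ℝ) / 2 ≤ Real.log (1 / (kap lam * h)) ^ (1/14 : ℝ) :=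
      (half_rpow_le (by norm_num) (by norm_num) hl.le).trans
        (Real.rpow_le_rpow (by linarith) h1 (by norm_num))
    calc _ ≤ h ^ (4/7 : ℝ) / (Real.log (1 / h) ^ (1/14 : ℝ) / 2) := by gcongr
      _ = _ := by field_simp
  · have h4 : Real.log (1 / (kap lam * h)) ^ (1/14 : ℝ) ≤ 2 * Real.log (1 / h) ^ (1/14 : ℝ) :=
      (Real.rpow_le_rpow (by linarith) h2 (by norm_num)).trans
        (two_rpow_le (by norm_num) (by norm_num) hl.le)
    calc _ = h ^ (4/7 : ℝ) / (2 * Real.log (1 / h) ^ (1/14 : ℝ)) := by field_simp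
      _ ≤ _ := by gcongr

theorem t_Mod : T_Mod := by
  intro c C hc hC
  refine ⟨c / 2, 2 * C, by positivity, by positivity, ?_⟩
  intro lam f p hlam hrev hmod a b hab
  have hT := hrev.1
  have hL : 1 ≤ Len lam p := hrev.2.1
  have hL' : 0 < Len lam p := by linarith
  have hk := kap_pos hlam
  have hkL := kap_Len hlam p
  obtain ⟨h0, hh0, H⟩ := hmod (tau (Len lam p) b) (tau (Len lam p) a) ((tau_lt hL).mpr hab)
  have hev : ∀ᶠ h : ℝ in 𝓝[>] 0, kap lam * h < h0 := by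
    have := (kap_tendsto hlam).eventually
      (mem_nhdsWithin_of_mem_nhds (Iio_mem_nhds hh0) : Set.Iio h0 ∈ 𝓝[>] (0:ℝ))
    exact this
  obtain ⟨h1, hh1, H1⟩ := mem_nhdsGT_iff_exists_Ioo_subset.mp (hev.and (mod_facts hlam))
  refine ⟨h1, hh1, ?_⟩
  intro h hpos hlt
  obtain ⟨g1, g2, g3⟩ := H1 (⟨hpos, hlt⟩ : h ∈ Set.Ioo 0 h1)
  have hkh : 0 < kap lam * h := mul_pos hk hpos
  obtain ⟨H2, H3⟩ := H (kap lam * h) hkh g1
  constructor
  · obtain ⟨s', t', e1, e2, e3, e4, e5⟩ := H2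
    have h1t : tau (Len lam p) 1 ≤ tau (Len lam p) b := (tau_le hL).mpr unitInterval.le_one'
    obtain ⟨t, rfl⟩ := tau_surj hL (h1t.trans e1)
    obtain ⟨s, rfl⟩ := tau_surj hL ((h1t.trans e1).trans e2)
    refine ⟨s, t, (tau_le hL).mp e3, (tau_le hL).mp e2, (tau_le hL).mp e1, ?_, ?_⟩
    · rw [tau_val hL, tau_val hL] at e4
      have e6 : ((1 - (s : ℝ) / Len lam p) - (1 - t / Len lam p)) * p.2 =
          kap lam * ((t : ℝ) - s) := by
        rw [← hkL]
        field_simp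
        ring
      rw [e6] at e4
      show ((t : ℝ) - s) * 1 ≤ h
      rw [mul_one]
      exact le_of_mul_le_mul_left e4 hk
    · rw [rev_dist hlam hrev, dist_comm]
      calc _ = c * ((h ^ (4/7 : ℝ) * Real.log (1 / h) ^ (3/7 : ℝ)) / 2) := by ring
        _ ≤ c * (lam * ((kap lam * h) ^ (4/7 : ℝ) * Real.log (1 / (kap lam * h)) ^ (3/7 : ℝ))) := by
          gcongr
        _ = lam * (c * ((kap lam * h) ^ (4/7 : ℝ) * Real.log (1 / (kap lam * h)) ^ (3/7 : ℝ))) := by
          ring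
        _ ≤ _ := by gcongr
  · intro s t hst
    have hst' : |(s : ℝ) - t| ≤ h := by
      have : |(s : ℝ) - t| * 1 ≤ h := hst
      rwa [mul_one] at this
    rw [rev_dist hlam hrev]
    have e1 : |((tau (Len lam p) s : unitInterval) : ℝ) - tau (Len lam p) t| * p.2 ≤
        kap lam * h := by
      rw [tau_val hL, tau_val hL]
      have e6 : (1 - (s : ℝ) / Len lam p) - (1 - t / Len lam p) = -(((s : ℝ) - t) / Len lam p) := by
        ring
      rw [e6, abs_neg, abs_div, abs_of_pos hL', ← hkL]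
      calc |(s : ℝ) - t| / Len lam p * (kap lam * Len lam p) = kap lam * |(s : ℝ) - t| := by
            field_simp
        _ ≤ _ := by gcongr
    calc _ ≤ lam * (C * ((kap lam * h) ^ (4/7 : ℝ) * Real.log (1 / (kap lam * h)) ^ (3/7 : ℝ))) := by
          gcongr
          exact H3 _ _ e1
      _ = C * (lam * ((kap lam * h) ^ (4/7 : ℝ) * Real.log (1 / (kap lam * h)) ^ (3/7 : ℝ))) := by
          ring
      _ ≤ C * (2 * (h ^ (4/7 : ℝ) * Real.log (1 / h) ^ (3/7 : ℝ))) := by gcongr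
      _ = _ := by ring

theorem t_Slo : T_Slo := by
  intro c C hc hC
  refine ⟨c / 2, 2 * C, by positivity, by positivity, ?_⟩
  intro lam f p hlam hrev hslo
  have hT := hrev.1
  have hL : 1 ≤ Len lam p := hrev.2.1
  have hL' : 0 < Len lam p := by linarith
  have hk := kap_pos hlam
  have hkL := kap_Len hlam p
  have htime : ∀ u v : unitInterval, p.2 * (((tau (Len lam p) u : unitInterval) : ℝ) -
      tau (Len lam p) v) = kap lam * ((v : ℝ) - u) := by
    intro u v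
    rw [tau_val hL, tau_val hL, ← hkL]
    field_simp
    ring
  constructor
  · have h1 := (kap_tendsto hlam).eventually hslo.1
    filter_upwards [h1, chi_facts hlam] with h H1 ⟨_, H2⟩ u v huv hd
    have hd' : (v : ℝ) - u = h := by
      have : (1 : ℝ) * ((v : ℝ) - u) = h := hd
      rwa [one_mul] at this
    have H3 := H1 (tau (Len lam p) v) (tau (Len lam p) u) ((tau_le hL).mpr huv)
      (by rw [htime, hd'])
    show _ ≤ Metric.diam (f '' Set.Icc u v)
    rw [rev_diam hlam hrev, tau_image_Icc hL]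
    calc c / 2 * chi h = c * (chi h / 2) := by ring
      _ ≤ c * (lam * chi (kap lam * h)) := by gcongr
      _ = lam * (c * chi (kap lam * h)) := by ring
      _ ≤ _ := by gcongr
  · intro s t hst
    have h1 := (kap_tendsto hlam).eventually
      (hslo.2 (tau (Len lam p) t) (tau (Len lam p) s) ((tau_lt hL).mpr hst))
    filter_upwards [h1, chi_facts hlam] with h H1 ⟨H2, _⟩
    obtain ⟨u', v', e1, e2, e3, e4, e5⟩ := H1
    have h1t : tau (Len lam p) 1 ≤ tau (Len lam p) t := (tau_le hL).mpr unitInterval.le_one'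
    obtain ⟨v, rfl⟩ := tau_surj hL (h1t.trans e1)
    obtain ⟨u, rfl⟩ := tau_surj hL ((h1t.trans e1).trans e2)
    refine ⟨u, v, (tau_le hL).mp e3, (tau_le hL).mp e2, (tau_le hL).mp e1, ?_, ?_⟩
    · rw [htime] at e4
      show (1 : ℝ) * ((v : ℝ) - u) = h
      rw [one_mul]
      exact mul_left_cancel₀ hk.ne' e4
    · show Metric.diam (f '' Set.Icc u v) ≤ _
      rw [rev_diam hlam hrev, tau_image_Icc hL]
      calc _ ≤ lam * (C * chi (kap lam * h)) := by gcongr
        _ = C * (lam * chi (kap lam * h)) := by ring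
        _ ≤ C * (2 * chi h) := by gcongr
        _ = _ := by ring

end Pool.Agent.L0h76.HT
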